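import Pool.Agent.P.MP_6b6f2e_an.SumFinal

open Pool.Agent.P.MP_6b6f2e_an in
/-- Let `1 ≤ r, p ≤ ∞` with `r ≠ 2` and `r ≠ p`, and let `Z` be the `ℓ_p`-sum (the `c_0`-sum if
`p = ∞`) of the spaces `ℓ_r^n`. Every separable Banach space containing a complemented copy of
`Z` has `2 ^ 𝔠` non-trivial proper closed ideals of operators. -/
theorem Pool.Agent.Results.MP_6b6f2e_an.BlockSums.result
    (𝕜 : Type) [RCLike 𝕜] (r p : ENNReal) [Fact (1 ≤ r)] [Fact (1 ≤ p)] (h2 : r ≠ 2) (hp : r ≠ p)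
    (Z : Type) [NormedAddCommGroup Z] [NormedSpace 𝕜 Z]
    (hZ : IsSum 𝕜 p (fun n => PiLp r fun _ : Fin n => 𝕜) Z)
    (X : Type) [NormedAddCommGroup X] [NormedSpace 𝕜 X] [CompleteSpace X]
    [TopologicalSpace.SeparableSpace X] (hX : ComplementedCopy 𝕜 X Z) :
    kappa 𝕜 X = 2 ^ Cardinal.continuum :=
  kappa_blockSum r p h2 hp Z hZ X hX
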