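import Pool.Agent.P.MP_6b6f2e_an.L2Final

open Pool.Agent.P.MP_6b6f2e_an in
/-- Let `Z` be the `ℓ_2`-sum of finite-dimensional normed spaces `E n`, and suppose that `Z` is
not isomorphic to an inner product space. Every separable Banach space containing a complemented
copy of `Z` has `2 ^ 𝔠` non-trivial proper closed ideals of operators. -/
theorem Pool.Agent.Results.MP_6b6f2e_an.HilbertSums.result
    (𝕜 : Type) [RCLike 𝕜] (E : ℕ → Type) [∀ n, NormedAddCommGroup (E n)]
    [∀ n, NormedSpace 𝕜 (E n)] [∀ n, FiniteDimensional 𝕜 (E n)]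
    (hZ : ∀ (H : Type) [NormedAddCommGroup H] [InnerProductSpace 𝕜 H], IsEmpty (lp E 2 ≃L[𝕜] H))
    (X : Type) [NormedAddCommGroup X] [NormedSpace 𝕜 X] [CompleteSpace X]
    [TopologicalSpace.SeparableSpace X] (hX : ComplementedCopy 𝕜 X (lp E 2)) :
    kappa 𝕜 X = 2 ^ Cardinal.continuum :=
  L2.kappa_l2 𝕜 E hZ X hX
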